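import Pool.Agent.Helper60.GM.Defs
import Pool.Agent.Helper3.RT.C3
import Pool.Agent.Helper18.GC.Cmp
import Pool.Agent.Helper18.GC.Psi

/-!
# Project GM, block C1: from a sector near `n` to the state of `n` at a frozen height `y`

`k = h n + j n'`, `u = h + x j`, `t = j / u`: the phase is `u Ψ(t)`, `Ψ t = r n₁ (1 - η t) q(τ + t / (n₁² (1 - η t)))`, `τ = n₂ / n₁`, `η = x(s, τ) / n₁²`; its second derivative at `0` is
`r p / n₁³` and its third derivative at `0` vanishes.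
-/

open MeasureTheory Real Set Filter Topology

set_option autoImplicit false

namespace Pool.Agent.Helper60.GM

open Pool.Agent.Helper22.AE
open Pool.Agent.Helper92.GC (dt tp Tq uu tt arc dd sqa m6)
open Pool.Agent.Helper92.DT (m12 IsMul12)
open Pool.Agent.Helper60.LT (Fr Tf xf yf df vf fr ac co Cut BB PP)
open Pool.Agent.Helper60.QL (nm Cone)
open Pool.Agent.Helper60.RT (R2 cn FR sp Pr prs ctr lf2 ln2 nm_hom_h3 sl_nm_h3)

private theorem tt0_h18 {k : ℤ × ℤ} (hk : 0 < k.1) : tt 0 k * k.1 = k.2 := by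
  have hkR : (k.1 : ℝ) ≠ 0 := by
    have : 0 < (k.1 : ℝ) := by exact_mod_cast hk
    exact this.ne'
  unfold tt uu
  rw [zero_mul, add_zero, div_mul_cancel₀ _ hkR]

/-! ## coordinates of the frame of `n` -/

private theorem frame_h18 {n : ℤ × ℤ} (hn : Pr n) (ξ : ℝ) {k : ℤ × ℤ} (hk : 0 < k.1) :
    uu (((co n).1 : ℝ) / n.1 + ξ / (n.1 : ℝ) ^ 2) (Pool.Agent.Helper60.LT.kp n k) = (k.1 : ℝ) / n.1 * (1 + (tt 0 k - sp n) * ξ) ∧
    ((Pool.Agent.Helper60.LT.kp n k).2 : ℝ) = n.1 * k.1 * (tt 0 k - sp n) := by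
  obtain ⟨hc, hn1⟩ := hn
  have hdet := Pool.Agent.Helper60.LT.co_spec hc
  have hdetR : (n.1 : ℝ) * (co n).2 - n.2 * (co n).1 = 1 := by exact_mod_cast hdet
  have hn1R : 0 < (n.1 : ℝ) := by exact_mod_cast hn1
  have hkR : 0 < (k.1 : ℝ) := by exact_mod_cast hk
  obtain ⟨n', hn'⟩ : ∃ n', n' = co n := ⟨_, rfl⟩
  have hkp : Pool.Agent.Helper60.LT.kp n k = (k.1 * n'.2 - k.2 * n'.1, n.1 * k.2 - n.2 * k.1) := by
    rw [hn']
    rfl
  rw [← hn'] at hdetR ⊢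
  have htn : sp n * n.1 = n.2 := by
    unfold sp
    field_simp
  have h2 : ((Pool.Agent.Helper60.LT.kp n k).2 : ℝ) = n.1 * k.1 * (tt 0 k - sp n) := by
    rw [hkp]
    push_cast
    linear_combination (-(n.1 : ℝ)) * tt0_h18 hk + k.1 * htn
  refine ⟨?_, h2⟩
  have h1 : ((Pool.Agent.Helper60.LT.kp n k).1 : ℝ) * n.1 = k.1 - (Pool.Agent.Helper60.LT.kp n k).2 * n'.1 := by
    rw [hkp]
    push_cast
    linear_combination k.1 * hdetR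
  unfold uu
  rw [h2]
  rw [h2] at h1
  have h3 : ((Pool.Agent.Helper60.LT.kp n k).1 : ℝ) = (k.1 - (n.1 : ℝ) * k.1 * (tt 0 k - sp n) * n'.1) / n.1 := by
    rw [eq_div_iff hn1R.ne']
    exact h1
  rw [h3]
  field_simp
  ring

private theorem nm_frame_h18 {g : Fr} (hg : 0 < Tf g) {k : ℤ × ℤ} (hu : 0 < uu (xf g) k) :
    nm (vf g k) = Tf g * (uu (xf g) k * √(1 + (yf g * tt (xf g) k) ^ 2)) := by
  obtain ⟨θ, -, hθ⟩ := Pool.Agent.Helper60.LT.fr_surj hg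
  have h1 := Pool.Agent.Helper60.LT.vf_fr nm_hom_h3 (θ := θ) (y := yf g) hg hu
  rw [← hθ] at h1
  rw [h1]
  unfold Pool.Agent.Helper60.LT.pf
  rw [sl_nm_h3]

/-! ## numbers -/

private theorem cn_h18 {N : ℕ} {k : ℤ × ℤ} (hk : k ∈ cn N) : 0 < k.1 ∧ (N : ℝ) ≤ k.1 ∧ (k.1 : ℝ) ≤ 2 * N ∧ |tt 0 k| ≤ 1 := by
  unfold cn at hk
  rw [Finset.mem_filter] at hk
  obtain ⟨h1, h2, h3⟩ := hk
  unfold sqa at h1
  rw [Finset.mem_filter] at h1
  obtain ⟨-, h4, h5, h6⟩ := h1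
  have h7 : 0 < k.1 := by omega
  have h8 : (N : ℤ) ≤ k.1 := by
    rcases h4 with h | h
    · rwa [abs_of_pos h7] at h
    · exact h.trans (abs_le.2 ⟨by omega, h3⟩)
  have h9 : k.1 ≤ 2 * (N : ℤ) := by
    rw [abs_of_pos h7] at h5
    exact h5.le
  have hkR : 0 < (k.1 : ℝ) := by exact_mod_cast h7
  refine ⟨h7, by exact_mod_cast h8, by exact_mod_cast h9, ?_⟩
  have e := tt0_h18 h7
  have h10 : |(k.2 : ℝ)| ≤ k.1 := by
    have : |k.2| ≤ k.1 := abs_le.2 ⟨by omega, h3⟩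
    exact_mod_cast this
  rw [← e, abs_mul, abs_of_pos hkR] at h10
  exact le_of_mul_le_mul_right (by linarith) hkR

private theorem num2_h18 {β X N ν a b A y u : ℝ} (hβ : 1 ≤ β) (hX : 1 ≤ X) (hN : 1 ≤ N) (hν : 1 ≤ ν) (ha : 0 < a) (hb : 0 < b)
    (hA : A ≤ a * X / ν ^ 3) (hA' : b * X / ν ^ 3 ≤ A) (hy0 : 0 < y) (hy : y ≤ β ^ 3 / ν ^ 2)
    (hy' : 1 / (β ^ 3 * ν ^ 2) ≤ y) (hu : u ≤ 11 / 5 * N / ν) (hu' : 9 / 10 * N / ν ≤ u) :
    X * N ≤ 10 / 9 * (β ^ 6 / b) * (A / y ^ 2 * u) ∧ A / y ^ 2 * u ≤ 11 / 5 * (β ^ 6 * a) * (X * N) := by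
  have hβ0 : 0 < β := by linarith
  have hX0 : 0 < X := by linarith
  have hν0 : 0 < ν := by linarith
  have hN0 : 0 < N := by linarith
  have hA0 : 0 < A := lt_of_lt_of_le (by positivity) hA'
  have hu0 : 0 < u := lt_of_lt_of_le (by positivity) hu'
  have h1 : y ^ 2 ≤ (β ^ 3 / ν ^ 2) ^ 2 := pow_le_pow_left₀ hy0.le hy 2
  have h2 : (1 / (β ^ 3 * ν ^ 2)) ^ 2 ≤ y ^ 2 := pow_le_pow_left₀ (by positivity) hy' 2
  constructor
  · have h3 : b * X / ν ^ 3 / (β ^ 3 / ν ^ 2) ^ 2 * (9 / 10 * N / ν) ≤ A / y ^ 2 * u :=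
      mul_le_mul (div_le_div₀ hA0.le hA' (by positivity) h1) hu' (by positivity) (by positivity)
    calc X * N = 10 / 9 * (β ^ 6 / b) * (b * X / ν ^ 3 / (β ^ 3 / ν ^ 2) ^ 2 * (9 / 10 * N / ν)) := by
          field_simp
      _ ≤ 10 / 9 * (β ^ 6 / b) * (A / y ^ 2 * u) := mul_le_mul_of_nonneg_left h3 (by positivity)
  · have h3 : A / y ^ 2 * u ≤ a * X / ν ^ 3 / (1 / (β ^ 3 * ν ^ 2)) ^ 2 * (11 / 5 * N / ν) :=
      mul_le_mul (div_le_div₀ (by positivity) hA (by positivity) h2) hu hu0.le (by positivity)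
    refine h3.trans (le_of_eq ?_)
    field_simp

private theorem num1_h18 {B B₀ β X N ν r A y t₂ E : ℝ} (hB : 1 ≤ B) (hB₀ : 1 ≤ B₀) (hβ : 1 ≤ β) (hX : 1 ≤ X) (hN : 1 ≤ N) (hν : 1 ≤ ν) (_hr0 : 0 ≤ r) (hr : r ≤ B * X)
    (hA : A ≤ B * B₀ * X / ν ^ 3) (hy0 : 0 ≤ y) (hy : y ≤ β ^ 3 / ν ^ 2) (ht : t₂ ^ 4 = (10 / 9) ^ 4 * ν ^ 8 * β / (X * N)) :
    2 * (r * ν * (32 * B₀ * (1 + E) ^ 2 * (1 / ν ^ 2) ^ 4) * t₂ ^ 2 + 3 / 2 * (A * y ^ 2) * t₂ ^ 2) * t₂ ^ 2 * (11 / 5 * N / ν) ≤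
      11 / 5 * (10 / 9) ^ 4 * β * B * B₀ * (64 * (1 + E) ^ 2 + 3 * β ^ 6) := by
  have hB0 : 0 < B := by linarith
  have hB₀0 : 0 < B₀ := by linarith
  have hβ0 : 0 < β := by linarith
  have hX0 : 0 < X := by linarith
  have hν0 : 0 < ν := by linarith
  have hN0 : 0 < N := by linarith
  have h2 : y ^ 2 ≤ (β ^ 3 / ν ^ 2) ^ 2 := pow_le_pow_left₀ hy0 hy 2
  have h3 : A * y ^ 2 ≤ B * B₀ * X / ν ^ 3 * (β ^ 3 / ν ^ 2) ^ 2 := mul_le_mul hA h2 (by positivity) (by positivity)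
  have h4 : r * ν * (32 * B₀ * (1 + E) ^ 2 * (1 / ν ^ 2) ^ 4) ≤ B * X * ν * (32 * B₀ * (1 + E) ^ 2 * (1 / ν ^ 2) ^ 4) :=
    mul_le_mul_of_nonneg_right (mul_le_mul_of_nonneg_right hr hν0.le) (by positivity)
  have h5 : 2 * (r * ν * (32 * B₀ * (1 + E) ^ 2 * (1 / ν ^ 2) ^ 4) * t₂ ^ 2 + 3 / 2 * (A * y ^ 2) * t₂ ^ 2) * t₂ ^ 2 =
      2 * (r * ν * (32 * B₀ * (1 + E) ^ 2 * (1 / ν ^ 2) ^ 4) + 3 / 2 * (A * y ^ 2)) * t₂ ^ 4 := by ring
  rw [h5]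
  have h6 : 2 * (r * ν * (32 * B₀ * (1 + E) ^ 2 * (1 / ν ^ 2) ^ 4) + 3 / 2 * (A * y ^ 2)) ≤
      2 * (B * X * ν * (32 * B₀ * (1 + E) ^ 2 * (1 / ν ^ 2) ^ 4) + 3 / 2 * (B * B₀ * X / ν ^ 3 * (β ^ 3 / ν ^ 2) ^ 2)) := by linarith only [h3, h4]
  calc 2 * (r * ν * (32 * B₀ * (1 + E) ^ 2 * (1 / ν ^ 2) ^ 4) + 3 / 2 * (A * y ^ 2)) * t₂ ^ 4 * (11 / 5 * N / ν) ≤
      2 * (B * X * ν * (32 * B₀ * (1 + E) ^ 2 * (1 / ν ^ 2) ^ 4) + 3 / 2 * (B * B₀ * X / ν ^ 3 * (β ^ 3 / ν ^ 2) ^ 2)) * t₂ ^ 4 * (11 / 5 * N / ν) :=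
        mul_le_mul_of_nonneg_right (mul_le_mul_of_nonneg_right h6 (by positivity)) (by positivity)
    _ = 11 / 5 * (10 / 9) ^ 4 * β * B * B₀ * (64 * (1 + E) ^ 2 + 3 * β ^ 6) := by
        rw [ht]
        field_simp
        ring

/-! ## the cut -/

private theorem cut_h18 {β : ℝ} {n : ℤ × ℤ} (hn : IsCoprime n.1 n.2) {I Sg : Finset (ℤ × ℤ)} (hC : Cut β I) (hI : ∀ k ∈ I, Pool.Agent.Helper60.LT.kp n k ∈ Sg) (b : ℤ × ℤ → ℂ) :
    m12 (I.image (Pool.Agent.Helper60.LT.kp n)) b ≤ β ^ 12 * m12 Sg b ∧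
      ∀ a : ℤ × ℤ → ℂ, m12 (I.image (Pool.Agent.Helper60.LT.kp n)) a = m12 I (fun k => a (Pool.Agent.Helper60.LT.kp n k)) := by
  classical
  have hdet := Pool.Agent.Helper60.LT.co_spec hn
  have hkp : ∀ k, Pool.Agent.Helper60.LT.kp n k = (k.1 * (co n).2 - k.2 * (co n).1, n.1 * k.2 - n.2 * k.1) := fun k => rfl
  obtain ⟨n', hn'⟩ : ∃ n', n' = co n := ⟨_, rfl⟩
  rw [← hn'] at hdet
  simp only [← hn'] at hkp
  let ψ : ℤ × ℤ → ℤ × ℤ := fun k' => (k'.1 * n.1 + k'.2 * n'.1, k'.1 * n.2 + k'.2 * n'.2)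
  have hφψ : ∀ k, ψ (Pool.Agent.Helper60.LT.kp n k) = k := by
    intro k
    rw [hkp]
    ext
    · show (k.1 * n'.2 - k.2 * n'.1) * n.1 + (n.1 * k.2 - n.2 * k.1) * n'.1 = k.1
      linear_combination k.1 * hdet
    · show (k.1 * n'.2 - k.2 * n'.1) * n.2 + (n.1 * k.2 - n.2 * k.1) * n'.2 = k.2
      linear_combination k.2 * hdet
  have hψφ : ∀ k, Pool.Agent.Helper60.LT.kp n (ψ k) = k := by
    intro k
    rw [hkp]
    ext
    · show (k.1 * n.1 + k.2 * n'.1) * n'.2 - (k.1 * n.2 + k.2 * n'.2) * n'.1 = k.1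
      linear_combination k.1 * hdet
    · show n.1 * (k.1 * n.2 + k.2 * n'.2) - n.2 * (k.1 * n.1 + k.2 * n'.1) = k.2
      linear_combination k.2 * hdet
  have hadd : ∀ k l, ψ (k + l) = ψ k + ψ l := by
    intro k l
    ext
    · show (k.1 + l.1) * n.1 + (k.2 + l.2) * n'.1 = (k.1 * n.1 + k.2 * n'.1) + (l.1 * n.1 + l.2 * n'.1)
      ring
    · show (k.1 + l.1) * n.2 + (k.2 + l.2) * n'.2 = (k.1 * n.2 + k.2 * n'.2) + (l.1 * n.2 + l.2 * n'.2)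
      ring
  have hadd' : ∀ k l, Pool.Agent.Helper60.LT.kp n (k + l) = Pool.Agent.Helper60.LT.kp n k + Pool.Agent.Helper60.LT.kp n l := by
    intro k l
    rw [hkp, hkp, hkp]
    ext
    · show (k.1 + l.1) * n'.2 - (k.2 + l.2) * n'.1 = (k.1 * n'.2 - k.2 * n'.1) + (l.1 * n'.2 - l.2 * n'.1)
      ring
    · show n.1 * (k.2 + l.2) - n.2 * (k.1 + l.1) = (n.1 * k.2 - n.2 * k.1) + (n.1 * l.2 - n.2 * l.1)
      ring
  have hinj : Function.Injective ψ := Function.LeftInverse.injective hψφ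
  have hinj' : Function.Injective (Pool.Agent.Helper60.LT.kp n) := Function.LeftInverse.injective hφψ
  have him : ∀ a : ℤ × ℤ → ℂ, m12 (I.image (Pool.Agent.Helper60.LT.kp n)) a = m12 I (fun k => a (Pool.Agent.Helper60.LT.kp n k)) :=
    fun a => Pool.Agent.Helper60.LT.m12_image _ hadd' hinj' I a
  refine ⟨?_, him⟩
  have hsub : I ⊆ Sg.image ψ := by
    intro k hk
    rw [Finset.mem_image]
    exact ⟨_, hI k hk, hφψ k⟩
  have hcut := Pool.Agent.Helper60.LT.m12_cut hC hsub (fun k => b (Pool.Agent.Helper60.LT.kp n k))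
  rw [Pool.Agent.Helper60.LT.m12_image ψ hadd hinj] at hcut
  simp only [hψφ] at hcut
  rw [him]
  exact hcut

/-! ## the theorem -/

theorem to_stateG {B₀ B β : ℝ} (hB₀ : 1 ≤ B₀) (hB : 1 ≤ B) (hβ : 1 ≤ β) : ∃ C L K₀ : ℝ, 1 ≤ C ∧ 1 ≤ L ∧ 1 ≤ K₀ ∧
    ∀ (F : Fam), F.Ok B₀ → ∀ (X U S y r s : ℝ) (N : ℕ) (n : ℤ × ℤ) (I : Finset (ℤ × ℤ)), 1 ≤ X → 1 ≤ N → K₀ ≤ X * N → 1 ≤ U → 0 < S → S ≤ 3 → Pr n → |sp n| ≤ 3 → U ≤ β * n.1 → (n.1 : ℝ) ≤ β * U →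
      Cut β I → I ⊆ cn N → (∀ k ∈ I, (n.1 : ℝ) ^ 2 * |tt 0 k - sp n| ≤ 9 / 10 * S) → (∀ k ∈ I, |tt 0 k - sp n| ^ 4 * (X * N) ≤ β) →
      s ∈ Icc (-1 : ℝ) 2 → r ∈ Icc (X / B) (B * X) → y ∈ Icc (1 / (β * U ^ 2)) (β / U ^ 2) →
        ENNReal.ofReal (mf F I r s) ≤ ENNReal.ofReal C * PP nm L S (X * N) (fr 0 y (r * yG F n s / y ^ 2) (xG F n s)) := by
  classical
  have hB0 : 0 < B := by linarith
  have hB₀0 : 0 < B₀ := by linarith
  have hβ0 : 0 < β := by linarith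
  obtain ⟨E, hE⟩ : ∃ E, E = B₀ ^ 2 := ⟨_, rfl⟩
  have hE1 : 1 ≤ E := by
    rw [hE]
    exact one_le_pow₀ hB₀
  obtain ⟨B', hB'⟩ : ∃ B', B' = 11 / 5 * (10 / 9) ^ 4 * β * B * B₀ * (64 * (1 + E) ^ 2 + 3 * β ^ 6) := ⟨_, rfl⟩
  obtain ⟨L, hL⟩ : ∃ L, L = 1 + 10 / 9 * (β ^ 6 / (1 / (B * B₀))) + 11 / 5 * (β ^ 6 * (B * B₀)) := ⟨_, rfl⟩
  have hB'0 : 0 ≤ B' := by
    rw [hB']
    positivity
  have hLa : 0 ≤ 10 / 9 * (β ^ 6 / (1 / (B * B₀))) := by positivity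
  have hLb : 0 ≤ 11 / 5 * (β ^ 6 * (B * B₀)) := by positivity
  have hL1 : 1 ≤ L := by
    rw [hL]
    linarith only [hLa]
  have hexp : 1 ≤ exp (3800 * B') := Real.one_le_exp (by positivity)
  refine ⟨exp (3800 * B') ^ 12 * β ^ 12, L, β * (10 * E) ^ 4, ?_, hL1, ?_, ?_⟩
  · exact one_le_mul_of_one_le_of_one_le (one_le_pow₀ hexp) (one_le_pow₀ hβ)
  · exact one_le_mul_of_one_le_of_one_le hβ (one_le_pow₀ (by linarith only [hE1]))
  intro F hF X U S y r s N n I hX hN hK hU hS hS3 hn hsp hUn hnU hcut hI hδS hδ4 hs hr hy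
  have hNR : 1 ≤ (N : ℝ) := by exact_mod_cast hN
  have hn1 : 1 ≤ (n.1 : ℝ) := by exact_mod_cast hn.2
  have hn0 : 0 < (n.1 : ℝ) := by linarith only [hn1]
  have hX0 : 0 < X := by linarith only [hX]
  have hN0 : 0 < (N : ℝ) := by linarith only [hNR]
  have hU0 : 0 < U := by linarith only [hU]
  have hXN : 0 < X * N := by positivity
  have hr0 : 0 < r := lt_of_lt_of_le (by positivity) hr.1
  have hy0 : 0 < y := lt_of_lt_of_le (by positivity) hy.1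
  have hU2 : U ^ 2 ≤ (β * n.1) ^ 2 := pow_le_pow_left₀ hU0.le hUn 2
  have hν2 : (n.1 : ℝ) ^ 2 ≤ (β * U) ^ 2 := pow_le_pow_left₀ hn0.le hnU 2
  have hyl : 1 / (β ^ 3 * (n.1 : ℝ) ^ 2) ≤ y := by
    refine le_trans ?_ hy.1
    refine div_le_div_of_nonneg_left (by norm_num) (by positivity) ?_
    calc β * U ^ 2 ≤ β * (β * n.1) ^ 2 := mul_le_mul_of_nonneg_left hU2 hβ0.le
      _ = β ^ 3 * (n.1 : ℝ) ^ 2 := by ring
  have hyu : y ≤ β ^ 3 / (n.1 : ℝ) ^ 2 := by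
    refine hy.2.trans ?_
    rw [div_le_div_iff₀ (by positivity) (by positivity)]
    calc β * (n.1 : ℝ) ^ 2 ≤ β * (β * U) ^ 2 := mul_le_mul_of_nonneg_left hν2 hβ0.le
      _ = β ^ 3 * U ^ 2 := by ring
  -- smallness of the distances
  obtain ⟨δ₂, hδ₂⟩ : ∃ δ₂, δ₂ = √(√(β / (X * N))) := ⟨_, rfl⟩
  have hδ₂0 : 0 ≤ δ₂ := by
    rw [hδ₂]
    exact Real.sqrt_nonneg _
  have hδ₂4 : δ₂ ^ 4 = β / (X * N) := by
    rw [show (4 : ℕ) = 2 * 2 from rfl, pow_mul, hδ₂, Real.sq_sqrt (Real.sqrt_nonneg _), Real.sq_sqrt (by positivity)]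
  have hδδ : ∀ k ∈ I, |tt 0 k - sp n| ≤ δ₂ := by
    intro k hk
    have h1 : |tt 0 k - sp n| ^ 4 ≤ δ₂ ^ 4 := by
      rw [hδ₂4, le_div_iff₀ hXN]
      exact hδ4 k hk
    exact (pow_le_pow_iff_left₀ (abs_nonneg _) hδ₂0 (by norm_num)).1 h1
  have hδE : δ₂ * (10 * E) ≤ 1 := by
    have h1 : δ₂ ^ 4 * (X * N) = β := by
      rw [hδ₂4]
      field_simp
    have h2 : δ₂ ^ 4 * (β * (10 * E) ^ 4) ≤ β := (mul_le_mul_of_nonneg_left hK (by positivity)).trans h1.le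
    have h3 : (δ₂ * (10 * E)) ^ 4 ≤ 1 := by
      have h4 : β * (δ₂ * (10 * E)) ^ 4 ≤ β * 1 := by
        calc β * (δ₂ * (10 * E)) ^ 4 = δ₂ ^ 4 * (β * (10 * E) ^ 4) := by ring
          _ ≤ β * 1 := by linarith only [h2]
      exact le_of_mul_le_mul_left h4 hβ0
    exact (pow_le_one_iff_of_nonneg (by positivity) (by norm_num)).1 h3
  have hδ1 : δ₂ ≤ 1 / 10 := by nlinarith only [hδE, hE1, hδ₂0]
  -- the family at `s`, `τ`
  obtain ⟨τ, hτ⟩ : ∃ τ, τ = sp n := ⟨_, rfl⟩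
  have hτ3 : |τ| ≤ 3 := by
    rw [hτ]
    exact hsp
  have hτ12 : |τ| ≤ 12 := by linarith only [hτ3]
  obtain ⟨-, -, bp, bq3, -, -, -, -⟩ := hF.bd s hs τ hτ12
  have hplo := hF.p_lo s hs τ hτ12
  have hp0 : 0 < F.p s τ := by
    by_contra hcon
    push Not at hcon
    have : B₀ * F.p s τ ≤ 0 := mul_nonpos_of_nonneg_of_nonpos hB₀0.le hcon
    linarith only [hplo, this]
  obtain ⟨ξ, hξ⟩ : ∃ ξ, ξ = F.x s τ := ⟨_, rfl⟩
  have hξp : 3 * ξ * F.p s τ = -F.q3 s τ := by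
    rw [hξ]
    unfold Fam.x
    field_simp
  have hξE : |ξ| ≤ E := by
    have h1 : |ξ| * F.p s τ * 3 = |F.q3 s τ| := by
      have h2 : |3 * ξ * F.p s τ| = |-F.q3 s τ| := by rw [hξp]
      rw [abs_mul, abs_mul, abs_neg, abs_of_pos hp0, abs_of_pos (by norm_num : (0 : ℝ) < 3)] at h2
      linarith only [h2]
    have h2 : |ξ| ≤ |ξ| * (B₀ * F.p s τ) := le_mul_of_one_le_right (abs_nonneg _) hplo
    have h3 : |ξ| * (B₀ * F.p s τ) = B₀ * (|ξ| * F.p s τ) := by ring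
    have h4 : |ξ| * F.p s τ ≤ B₀ := by linarith only [hB₀, bq3, h1, abs_nonneg (F.q3 s τ), mul_nonneg (abs_nonneg ξ) hp0.le]
    rw [hE]
    calc |ξ| ≤ B₀ * (|ξ| * F.p s τ) := by rw [← h3]; exact h2
      _ ≤ B₀ * B₀ := mul_le_mul_of_nonneg_left h4 hB₀0.le
      _ = B₀ ^ 2 := by ring
  obtain ⟨ν, hν⟩ : ∃ ν : ℝ, ν = n.1 := ⟨_, rfl⟩
  obtain ⟨x, hx⟩ : ∃ x, x = xG F n s := ⟨_, rfl⟩
  have hxe : x = ((co n).1 : ℝ) / n.1 + ξ / (n.1 : ℝ) ^ 2 := by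
    rw [hx, hξ, hτ]
    rfl
  obtain ⟨A, hA⟩ : ∃ A, A = r * yG F n s := ⟨_, rfl⟩
  have hAe : A = r * (F.p s τ / (n.1 : ℝ) ^ 3) := by
    rw [hA, hτ]
    rfl
  rw [← hA, ← hx]
  have hpB : F.p s τ ≤ B₀ := (le_abs_self _).trans bp
  have hA1 : A ≤ B * B₀ * X / (n.1 : ℝ) ^ 3 := by
    rw [hAe, ← mul_div_assoc]
    refine div_le_div_of_nonneg_right ?_ (by positivity)
    calc r * F.p s τ ≤ (B * X) * B₀ := mul_le_mul hr.2 hpB hp0.le (by positivity)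
      _ = B * B₀ * X := by ring
  have hA2 : 1 / (B * B₀) * X / (n.1 : ℝ) ^ 3 ≤ A := by
    rw [hAe, ← mul_div_assoc]
    refine div_le_div_of_nonneg_right ?_ (by positivity)
    have h1 : 1 / B₀ ≤ F.p s τ := by
      rw [div_le_iff₀ hB₀0]
      linarith only [hplo]
    calc 1 / (B * B₀) * X = X / B * (1 / B₀) := by
          field_simp
      _ ≤ r * F.p s τ := mul_le_mul hr.1 h1 (by positivity) hr0.le
  have hA0 : 0 < A := lt_of_lt_of_le (by positivity) hA2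
  have hT' : 0 < A / y ^ 2 := by positivity
  obtain ⟨hF1, hF2, hF3, -⟩ := Pool.Agent.Helper60.LT.fr_coord (θ := 0) (y := y) (x := x) hT'
  -- sizes of the coordinates
  have hu : ∀ k ∈ I, 9 / 10 * ((k.1 : ℝ) / n.1) ≤ uu x (Pool.Agent.Helper60.LT.kp n k) ∧ uu x (Pool.Agent.Helper60.LT.kp n k) ≤ 11 / 10 * ((k.1 : ℝ) / n.1) := by
    intro k hk
    obtain ⟨hk1, -, -, -⟩ := cn_h18 (hI hk)
    have hkR : 0 < (k.1 : ℝ) := by exact_mod_cast hk1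
    have hkn : 0 < (k.1 : ℝ) / n.1 := by positivity
    rw [hxe, (frame_h18 hn ξ hk1).1]
    have h1 : |(tt 0 k - sp n) * ξ| ≤ 1 / 10 := by
      rw [abs_mul]
      have h2 : |tt 0 k - sp n| * |ξ| ≤ δ₂ * E := mul_le_mul (hδδ k hk) hξE (abs_nonneg _) hδ₂0
      linarith only [hδE, h2]
    obtain ⟨h4, h5⟩ := abs_le.1 h1
    constructor
    · rw [mul_comm (9 / 10 : ℝ)]
      exact mul_le_mul_of_nonneg_left (by linarith only [h4]) hkn.le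
    · rw [mul_comm (11 / 10 : ℝ)]
      exact mul_le_mul_of_nonneg_left (by linarith only [h5]) hkn.le
  have hu0 : ∀ k ∈ I, 0 < uu x (Pool.Agent.Helper60.LT.kp n k) := by
    intro k hk
    obtain ⟨hk1, -, -, -⟩ := cn_h18 (hI hk)
    have hkR : 0 < (k.1 : ℝ) := by exact_mod_cast hk1
    exact lt_of_lt_of_le (by positivity) (hu k hk).1
  have hu' : ∀ k ∈ I, 9 / 10 * N / n.1 ≤ uu x (Pool.Agent.Helper60.LT.kp n k) ∧ uu x (Pool.Agent.Helper60.LT.kp n k) ≤ 11 / 5 * N / n.1 := by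
    intro k hk
    obtain ⟨-, hkN, hkN', -⟩ := cn_h18 (hI hk)
    obtain ⟨h1, h2⟩ := hu k hk
    constructor
    · refine le_trans ?_ h1
      rw [mul_div_assoc]
      exact mul_le_mul_of_nonneg_left (div_le_div_of_nonneg_right hkN hn0.le) (by norm_num)
    · refine h2.trans ?_
      have h3 : (k.1 : ℝ) / n.1 ≤ 2 * N / n.1 := div_le_div_of_nonneg_right hkN' hn0.le
      calc 11 / 10 * ((k.1 : ℝ) / n.1) ≤ 11 / 10 * (2 * N / n.1) := mul_le_mul_of_nonneg_left h3 (by norm_num)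
        _ = 11 / 5 * N / n.1 := by ring
  have hj : ∀ k ∈ I, |((Pool.Agent.Helper60.LT.kp n k).2 : ℝ)| ≤ 10 / 9 * (n.1 : ℝ) ^ 2 * |tt 0 k - sp n| * uu x (Pool.Agent.Helper60.LT.kp n k) := by
    intro k hk
    obtain ⟨hk1, -, -, -⟩ := cn_h18 (hI hk)
    have hkR : 0 < (k.1 : ℝ) := by exact_mod_cast hk1
    rw [(frame_h18 hn ξ hk1).2, abs_mul, abs_mul, abs_of_pos hn0, abs_of_pos hkR]
    have h1 := (hu k hk).1
    have h2 : 0 ≤ 10 / 9 * (n.1 : ℝ) ^ 2 * |tt 0 k - sp n| := by (clear * - hn1; positivity)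
    calc (n.1 : ℝ) * k.1 * |tt 0 k - sp n| = 10 / 9 * (n.1 : ℝ) ^ 2 * |tt 0 k - sp n| * (9 / 10 * ((k.1 : ℝ) / n.1)) := by
          field_simp
      _ ≤ _ := mul_le_mul_of_nonneg_left h1 h2
  -- membership
  have hmem : ∀ k ∈ I, Pool.Agent.Helper60.LT.kp n k ∈ Pool.Agent.Helper60.LT.st L S (X * N) (A / y ^ 2) x := by
    intro k hk
    rw [Pool.Agent.Helper60.LT.mem_st hT' (by linarith only [hL, hLa]) hXN hS.le]
    obtain ⟨h1, h2⟩ := num2_h18 hβ hX hNR hn1 (a := B * B₀) (b := 1 / (B * B₀)) (by positivity) (by positivity) hA1 hA2 hy0 hyu hyl (hu' k hk).2 (hu' k hk).1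
    have h3 := hu0 k hk
    have h4 : 0 ≤ A / y ^ 2 * uu x (Pool.Agent.Helper60.LT.kp n k) := by positivity
    refine ⟨?_, ?_, ?_⟩
    · refine h1.trans (mul_le_mul_of_nonneg_right ?_ h4)
      rw [hL]
      linarith only [hLa]
    · refine h2.trans (mul_le_mul_of_nonneg_right ?_ hXN.le)
      rw [hL]
      linarith only [hLa]
    · refine (hj k hk).trans (mul_le_mul_of_nonneg_right ?_ h3.le)
      have := hδS k hk
      nlinarith only [this]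
  -- the moments
  obtain ⟨hcutb, him⟩ := cut_h18 hn.1 hcut hmem (fun k => ee (nm (vf (fr 0 y (A / y ^ 2) x) k)))
  obtain ⟨t₂, ht₂⟩ : ∃ t₂, t₂ = 10 / 9 * (n.1 : ℝ) ^ 2 * δ₂ := ⟨_, rfl⟩
  have ht₂0 : 0 ≤ t₂ := by
    rw [ht₂]
    positivity
  have ht₂4 : t₂ ^ 4 = (10 / 9) ^ 4 * (n.1 : ℝ) ^ 8 * β / (X * N) := by
    rw [ht₂, mul_pow, hδ₂4]
    ring
  have huI : ∀ k' ∈ I.image (Pool.Agent.Helper60.LT.kp n), 0 < uu x k' ∧ uu x k' ≤ 11 / 5 * N / n.1 ∧ |tt x k'| ≤ t₂ := by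
    intro k' hk'
    rw [Finset.mem_image] at hk'
    obtain ⟨k, hk, rfl⟩ := hk'
    refine ⟨hu0 k hk, (hu' k hk).2, ?_⟩
    unfold tt
    rw [abs_div, abs_of_pos (hu0 k hk), div_le_iff₀ (hu0 k hk)]
    refine (hj k hk).trans (mul_le_mul_of_nonneg_right ?_ (hu0 k hk).le)
    rw [ht₂]
    exact mul_le_mul_of_nonneg_left (hδδ k hk) (by positivity)
  obtain ⟨D, hD⟩ : ∃ D, D = 1 / (n.1 : ℝ) ^ 2 := ⟨_, rfl⟩
  have hD0 : 0 < D := by
    rw [hD]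
    positivity
  obtain ⟨η, hη⟩ : ∃ η, η = ξ * D := ⟨_, rfl⟩
  have hDt : D * t₂ = 10 / 9 * δ₂ := by
    rw [hD, ht₂]
    field_simp
  have hηE : |η| ≤ E * D := by
    rw [hη, abs_mul, abs_of_pos hD0]
    exact mul_le_mul_of_nonneg_right hξE hD0.le
  have hηt : |η| * t₂ ≤ 1 / 2 := by
    have h1 : |η| * t₂ ≤ E * D * t₂ := mul_le_mul_of_nonneg_right hηE ht₂0
    have h2 : E * D * t₂ = 10 / 9 * (δ₂ * E) := by
      rw [mul_assoc, hDt]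
      ring
    linarith only [hδE, h1, h2]
  obtain ⟨hψ1, hψ2, hψ3⟩ := Pool.Agent.Helper18.GC.psi_facts (q := F.q s) (q1 := F.q1 s) (q2 := F.p s) (q3 := F.q3 s) (q4 := F.q4 s) (B := B₀) (E := E) (τ := τ) (D := D) (η := η)
    (t₂ := t₂) hB₀0.le (by linarith only [hE1]) (hF.hq s hs) (hF.hq1 s hs) (hF.hp s hs) (hF.hq3 s hs) bp bq3 (fun z hz => (hF.bd s hs z hz).2.2.2.2.1) (by linarith only [hτ3]) hD0.le
    (by rw [hη]; linear_combination D * hξp) hηE hηt (by rw [hDt]; linarith only [hδ1])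
  have hcmp := Pool.Agent.Helper18.GC.cmp (I' := I.image (Pool.Agent.Helper60.LT.kp n)) (T' := A / y ^ 2) (y := y) (x := x) (U := 11 / 5 * N / n.1) (t₂ := t₂) (B' := B') (A := A)
    (K := r * n.1 * (32 * B₀ * (1 + E) ^ 2 * D ^ 4) * t₂ ^ 2)
    (Ψ := fun t => r * n.1 * ((1 - η * t) * F.q s (τ + D * t / (1 - η * t))))
    (Ψ1 := fun t => r * n.1 * (-η * F.q s (τ + D * t / (1 - η * t)) + D * F.q1 s (τ + D * t / (1 - η * t)) / (1 - η * t)))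
    (Ψ2 := fun t => r * n.1 * (D ^ 2 * F.p s (τ + D * t / (1 - η * t)) / (1 - η * t) ^ 3))
    (by positivity) ht₂0 huI (fun t ht => (hψ1 t ht).const_mul _) (fun t ht => (hψ2 t ht).const_mul _)
    (fun t ht => by
      have h1 := hψ3 t ht
      have h2 : A = r * n.1 * (D ^ 2 * F.p s τ) := by
        rw [hAe, hD]
        field_simp
      rw [h2, ← mul_sub, abs_mul, abs_of_pos (by positivity : 0 < r * (n.1 : ℝ))]
      have h3 : t ^ 2 ≤ t₂ ^ 2 := sq_le_sq' ht.1 ht.2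
      have h4 : 32 * B₀ * (1 + E) ^ 2 * D ^ 4 * t ^ 2 ≤ 32 * B₀ * (1 + E) ^ 2 * D ^ 4 * t₂ ^ 2 := mul_le_mul_of_nonneg_left h3 (by positivity)
      calc r * n.1 * |D ^ 2 * F.p s (τ + D * t / (1 - η * t)) / (1 - η * t) ^ 3 - D ^ 2 * F.p s τ| ≤ r * n.1 * (32 * B₀ * (1 + E) ^ 2 * D ^ 4 * t₂ ^ 2) :=
            mul_le_mul_of_nonneg_left (h1.trans h4) (by positivity)
        _ = r * n.1 * (32 * B₀ * (1 + E) ^ 2 * D ^ 4) * t₂ ^ 2 := by ring)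
    (by rw [div_mul_cancel₀ _ (by positivity : y ^ 2 ≠ 0)]) hT'.le (by
      rw [hB', hD]
      exact num1_h18 hB hB₀ hβ hX hNR hn1 hr0.le hr.2 hA1 hy0.le hyu ht₂4)
  have e1 : mf F I r s = m12 (I.image (Pool.Agent.Helper60.LT.kp n)) (fun k => ee (uu x k * (r * n.1 * ((1 - η * tt x k) * F.q s (τ + D * tt x k / (1 - η * tt x k)))))) := by
    rw [him]
    unfold mf
    refine Pool.Agent.Helper92.DT.m12_congr fun k hk => ?_
    obtain ⟨hk1, -, -, -⟩ := cn_h18 (hI hk)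
    have hkR : 0 < (k.1 : ℝ) := by exact_mod_cast hk1
    obtain ⟨hf1, hf2⟩ := frame_h18 hn ξ hk1
    rw [← hxe] at hf1
    have hup := hu0 k hk
    have htu : tt x (Pool.Agent.Helper60.LT.kp n k) * uu x (Pool.Agent.Helper60.LT.kp n k) = n.1 * k.1 * (tt 0 k - sp n) := by
      rw [← hf2]
      unfold tt
      rw [div_mul_cancel₀ _ hup.ne']
    obtain ⟨u, hud⟩ : ∃ u, u = uu x (Pool.Agent.Helper60.LT.kp n k) := ⟨_, rfl⟩
    obtain ⟨t, htd⟩ : ∃ t, t = tt x (Pool.Agent.Helper60.LT.kp n k) := ⟨_, rfl⟩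
    obtain ⟨δ, hδd⟩ : ∃ δ, δ = tt 0 k - sp n := ⟨_, rfl⟩
    rw [← hud, ← hδd] at hf1
    rw [← hud] at hup
    rw [← hud, ← htd, ← hδd] at htu
    rw [← hud, ← htd]
    have hw : u * (1 - η * t) = k.1 / n.1 := by
      rw [hη, hD]
      have h5 : u * (1 - ξ * (1 / (n.1 : ℝ) ^ 2) * t) = u - ξ * (1 / (n.1 : ℝ) ^ 2) * (t * u) := by ring
      rw [h5, htu, hf1]
      field_simp
      ring
    have hw0 : 0 < 1 - η * t := by
      have h5 : 0 < u * (1 - η * t) := by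
        rw [hw]
        positivity
      exact (mul_pos_iff_of_pos_left hup).1 h5
    have hδe : D * t / (1 - η * t) = δ := by
      rw [div_eq_iff hw0.ne']
      have h5 : u * (D * t) = u * (δ * (1 - η * t)) := by
        have h6 : u * (δ * (1 - η * t)) = δ * (u * (1 - η * t)) := by ring
        rw [h6, hw, hD]
        have h7 : u * (1 / (n.1 : ℝ) ^ 2 * t) = 1 / (n.1 : ℝ) ^ 2 * (t * u) := by ring
        rw [h7, htu]
        field_simp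
      exact mul_left_cancel₀ hup.ne' h5
    have hτδ : τ + δ = tt 0 k := by
      rw [hδd, hτ]
      ring
    rw [hδe, hτδ]
    congr 1
    have h8 : u * (r * n.1 * ((1 - η * t) * F.q s (tt 0 k))) = r * n.1 * (u * (1 - η * t)) * F.q s (tt 0 k) := by ring
    rw [h8, hw]
    field_simp
  have e2 : m12 (I.image (Pool.Agent.Helper60.LT.kp n)) (fun k => ee (A / y ^ 2 * (uu x k * √(1 + (y * tt x k) ^ 2)))) =
      m12 (I.image (Pool.Agent.Helper60.LT.kp n)) (fun k => ee (nm (vf (fr 0 y (A / y ^ 2) x) k))) := by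
    refine Pool.Agent.Helper92.DT.m12_congr fun k hk => ?_
    have h1 := (huI k hk).1
    rw [nm_frame_h18 (by rw [hF1]; exact hT') (by rw [hF2]; exact h1), hF1, hF2, hF3]
  rw [e2, ← e1] at hcmp
  have hfin : mf F I r s ≤ exp (3800 * B') ^ 12 * β ^ 12 * m12 (Pool.Agent.Helper60.LT.st L S (X * N) (A / y ^ 2) x) (fun k => ee (nm (vf (fr 0 y (A / y ^ 2) x) k))) := by
    refine hcmp.trans ?_
    rw [mul_assoc]
    exact mul_le_mul_of_nonneg_left hcutb (by positivity)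
  unfold PP
  rw [hF1, hF2, ← ENNReal.ofReal_mul (by positivity)]
  exact ENNReal.ofReal_le_ofReal hfin

end Pool.Agent.Helper60.GM
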